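import Mathlib

open SimpleGraph

namespace Pool.Agent.Results.MP_ca4ce9_co.CyclomaticBound

variable {V : Type*}

/-- `d(w, e) = min {d(w,u), d(w,v)}` for an edge `e = uv`. -/
noncomputable def edgeDist (G : SimpleGraph V) (w : V) : Sym2 V → ℕ :=
  Sym2.lift ⟨fun u v => min (G.dist w u) (G.dist w v), fun _ _ => min_comm _ _⟩

/-- The distance from the vertex `w` to an element of `V(G) ∪ E(G)` (a vertex or an edge). -/
noncomputable def eltDist (G : SimpleGraph V) (w : V) : V ⊕ G.edgeSet → ℕ
  | Sum.inl x => G.dist w x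
  | Sum.inr e => edgeDist G w e.1

/-- `S` is a mixed resolving set of `G`: for every two distinct elements `x, y` of `V(G) ∪ E(G)`
there is `s ∈ S` with `d(s,x) ≠ d(s,y)`. -/
def IsMixedResolving (G : SimpleGraph V) (S : Finset V) : Prop :=
  ∀ x y : V ⊕ G.edgeSet, x ≠ y → ∃ s ∈ S, eltDist G s x ≠ eltDist G s y

/-- The mixed metric dimension: the smallest size of a mixed resolving set. -/
noncomputable def mdim (G : SimpleGraph V) : ℕ :=
  sInf {k | ∃ S : Finset V, S.card = k ∧ IsMixedResolving G S}

/-- The cyclomatic number `c(G) = m - n + 1`. -/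
noncomputable def cyclomatic [Fintype V] (G : SimpleGraph V) : ℤ :=
  (G.edgeSet.ncard : ℤ) - (Fintype.card V : ℤ) + 1

/-- `ℓ(G)`: the number of vertices of degree `1`. -/
noncomputable def leafCount (G : SimpleGraph V) : ℕ :=
  {v : V | (G.neighborSet v).ncard = 1}.ncard

/-- `2`-connected: at least three vertices, connected, and no cut-vertex. -/
def TwoConnected [Fintype V] (G : SimpleGraph V) : Prop :=
  3 ≤ Fintype.card V ∧ G.Connected ∧ ∀ v : V, (G.induce ({v}ᶜ : Set V)).Connected

/-! ### Geodesics -/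

section geod

variable {G : SimpleGraph V} (hG : G.Connected)
include hG

lemma exists_parent {r x : V} (h : x ≠ r) : ∃ p, G.Adj x p ∧ G.dist r p + 1 = G.dist r x := by
  obtain ⟨w, hw⟩ := hG.exists_walk_length_eq_dist x r
  cases w with
  | nil => exact absurd rfl h
  | @cons _ p _ hadj q =>
    refine ⟨p, hadj, ?_⟩
    have h1 : G.dist p r ≤ q.length := dist_le q
    have h2 : G.dist x r ≤ G.dist x p + G.dist p r := hG.dist_triangle
    have h3 : G.dist x p = 1 := dist_eq_one_iff_adj.mpr hadj
    rw [Walk.length_cons] at hw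
    rw [dist_comm (u := r) (v := p), dist_comm (u := r) (v := x)]
    omega

/-- `s` lies below `y`: some geodesic from `r` to `s` passes through `y`. -/
def Below (G : SimpleGraph V) (r y s : V) : Prop := G.dist r s = G.dist r y + G.dist y s

omit hG in
lemma below_self (r y : V) : Below G r y y := by simp [Below]

lemma below_pred {r y w : V} (h : Below G r y w) (hne : w ≠ y) :
    ∃ p, G.Adj w p ∧ G.dist r p + 1 = G.dist r w ∧ Below G r y p := by
  obtain ⟨p, hadj, hp⟩ := exists_parent hG hne
  refine ⟨p, hadj, ?_, ?_⟩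
  all_goals
    unfold Below at *
    have h1 : G.dist r w ≤ G.dist r p + G.dist p w := hG.dist_triangle
    have h2 : G.dist r p ≤ G.dist r y + G.dist y p := hG.dist_triangle
    have h3 : G.dist p w = 1 := dist_eq_one_iff_adj.mpr hadj.symm
    omega

lemma below_succ {r y s z : V} (h : Below G r y s) (hadj : G.Adj s z)
    (hz : G.dist r z = G.dist r s + 1) : Below G r y z := by
  unfold Below at *
  have h1 : G.dist r z ≤ G.dist r y + G.dist y z := hG.dist_triangle
  have h2 : G.dist y z ≤ G.dist y s + G.dist s z := hG.dist_triangle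
  have h3 : G.dist s z = 1 := dist_eq_one_iff_adj.mpr hadj
  omega

lemma level_adj {r x y : V} (h : G.Adj x y) :
    G.dist r y + 1 = G.dist r x ∨ G.dist r y = G.dist r x ∨ G.dist r y = G.dist r x + 1 := by
  have h1 : G.dist r y ≤ G.dist r x + G.dist x y := hG.dist_triangle
  have h2 : G.dist r x ≤ G.dist r y + G.dist y x := hG.dist_triangle
  have h3 : G.dist x y = 1 := dist_eq_one_iff_adj.mpr h
  have h4 : G.dist y x = 1 := dist_eq_one_iff_adj.mpr h.symm
  omega

/-- The element `a` has low vertex `y`. -/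
def Low (G : SimpleGraph V) (r : V) (a : V ⊕ G.edgeSet) (y : V) : Prop :=
  ∀ s, G.dist r s ≤ eltDist G s a + G.dist r y ∧
    (eltDist G s a + G.dist r y = G.dist r s ↔ Below G r y s)

lemma low_vertex (r y : V) : Low G r (Sum.inl y) y := by
  intro s
  have h1 : G.dist r s ≤ G.dist r y + G.dist y s := hG.dist_triangle
  have h2 : G.dist y s = G.dist s y := dist_comm
  simp only [eltDist, Below]
  omega

lemma low_edge {r y p : V} (hadj : G.Adj y p) (hp : G.dist r p + 1 = G.dist r y) :
    Low G r (Sum.inr ⟨s(y, p), hadj⟩) y := by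
  intro s
  have h1 : G.dist r s ≤ G.dist r y + G.dist y s := hG.dist_triangle
  have h2 : G.dist y s = G.dist s y := dist_comm
  have h3 : G.dist r s ≤ G.dist r p + G.dist p s := hG.dist_triangle
  have h4 : G.dist p s = G.dist s p := dist_comm
  simp only [eltDist, edgeDist, Sym2.lift_mk, Below]
  omega

end geod

/-! ### Resolving elements with different low vertices -/

section sep

variable {G : SimpleGraph V} (hG : G.Connected) {r : V} {W : Finset V}
  (H2 : ∀ y, ∃ s ∈ W, Below G r y s)
  (HK : ∀ w p q, G.Adj w p → G.Adj w q → G.dist r p + 1 = G.dist r w →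
    G.dist r q + 1 = G.dist r w → p ≠ q → p ∈ W ∨ q ∈ W)

/-- `W` resolves the pair `a, b`. -/
def Res (G : SimpleGraph V) (W : Finset V) (a b : V ⊕ G.edgeSet) : Prop :=
  ∃ s ∈ W, eltDist G s a ≠ eltDist G s b

lemma Res.symm {a b : V ⊕ G.edgeSet} (h : Res G W a b) : Res G W b a := by
  obtain ⟨s, hs, h⟩ := h
  exact ⟨s, hs, h.symm⟩

include hG H2 HK

lemma sep_level {y z : V} (hne : y ≠ z) (hlev : G.dist r y = G.dist r z) :
    ∃ s ∈ W, (Below G r y s ∧ ¬ Below G r z s) ∨ (Below G r z s ∧ ¬ Below G r y s) := by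
  classical
  by_cases hD : ∃ w, Below G r y w ∧ Below G r z w
  · -- a common lower vertex of minimal level
    let P : ℕ → Prop := fun n => ∃ w, Below G r y w ∧ Below G r z w ∧ G.dist r w = n
    have hP : ∃ n, P n := by
      obtain ⟨w, h1, h2⟩ := hD
      exact ⟨_, w, h1, h2, rfl⟩
    obtain ⟨w, hyw, hzw, hw⟩ := Nat.find_spec hP
    have hmin : ∀ u, Below G r y u → Below G r z u → G.dist r w ≤ G.dist r u := by
      intro u h1 h2
      rw [hw]
      exact Nat.find_min' hP ⟨u, h1, h2, rfl⟩
    have hwy : w ≠ y := by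
      rintro rfl
      unfold Below at hzw
      have : G.dist z w = 0 := by omega
      rw [hG.dist_eq_zero_iff] at this
      exact hne this.symm
    have hwz : w ≠ z := by
      rintro rfl
      unfold Below at hyw
      have : G.dist y w = 0 := by omega
      rw [hG.dist_eq_zero_iff] at this
      exact hne this
    obtain ⟨p, hp1, hp2, hp3⟩ := below_pred hG hyw hwy
    obtain ⟨q, hq1, hq2, hq3⟩ := below_pred hG hzw hwz
    have hpz : ¬ Below G r z p := fun h => by
      have := hmin p hp3 h
      omega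
    have hqy : ¬ Below G r y q := fun h => by
      have := hmin q h hq3
      omega
    have hpq : p ≠ q := by
      rintro rfl
      exact hpz hq3
    rcases HK w p q hp1 hq1 hp2 hq2 hpq with h | h
    · exact ⟨p, h, Or.inl ⟨hp3, hpz⟩⟩
    · exact ⟨q, h, Or.inr ⟨hq3, hqy⟩⟩
  · obtain ⟨s, hs, h⟩ := H2 y
    exact ⟨s, hs, Or.inl ⟨h, fun h' => hD ⟨s, h, h'⟩⟩⟩

lemma res_low {a b : V ⊕ G.edgeSet} {y z : V} (ha : Low G r a y) (hb : Low G r b z)
    (hne : y ≠ z) : Res G W a b := by
  rcases lt_trichotomy (G.dist r y) (G.dist r z) with h | h | h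
  · obtain ⟨s, hs, hzs⟩ := H2 z
    refine ⟨s, hs, ?_⟩
    have h1 := (hb s).2.2 hzs
    have h2 := (ha s).1
    omega
  · obtain ⟨s, hs, h3⟩ := sep_level hG H2 HK hne h
    refine ⟨s, hs, ?_⟩
    intro heq
    rcases h3 with ⟨h3, h4⟩ | ⟨h3, h4⟩
    · apply h4
      apply (hb s).2.1
      have := (ha s).2.2 h3
      omega
    · apply h4
      apply (ha s).2.1
      have := (hb s).2.2 h3
      omega
  · obtain ⟨s, hs, hys⟩ := H2 y
    refine ⟨s, hs, ?_⟩
    have h1 := (ha s).2.2 hys
    have h2 := (hb s).1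
    omega

end sep

section main

variable {G : SimpleGraph V} (hG : G.Connected)
include hG

lemma eltDist_edge_eq_zero {s : V} {e : G.edgeSet} (h : eltDist G s (Sum.inr e) = 0) :
    s ∈ e.1 := by
  obtain ⟨e, he⟩ := e
  induction e using Sym2.ind with
  | _ u v =>
    simp only [eltDist, edgeDist, Sym2.lift_mk] at h
    simp only [Sym2.mem_iff]
    rcases (by omega : G.dist s u = 0 ∨ G.dist s v = 0) with h | h
    · rw [hG.dist_eq_zero_iff] at h
      exact Or.inl h
    · rw [hG.dist_eq_zero_iff] at h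
      exact Or.inr h

lemma res_full {W : Finset V} {e : G.edgeSet} (he : ∀ x ∈ e.1, x ∈ W) {b : V ⊕ G.edgeSet}
    (hb : b ≠ Sum.inr e) : Res G W (Sum.inr e) b := by
  classical
  by_contra hcon
  have hcon' : ∀ s ∈ W, eltDist G s (Sum.inr e) = eltDist G s b := by
    intro s hs
    by_contra h
    exact hcon ⟨s, hs, h⟩
  obtain ⟨e, hadj⟩ := e
  induction e using Sym2.ind with
  | _ u v =>
    have hu : u ∈ W := he u (Sym2.mem_mk_left u v)
    have hv : v ∈ W := he v (Sym2.mem_mk_right u v)
    have huv : u ≠ v := G.ne_of_adj hadj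
    have hu0 := hcon' u hu
    have hv0 := hcon' v hv
    simp only [eltDist, edgeDist, Sym2.lift_mk, dist_self, Nat.zero_min, Nat.min_zero] at hu0 hv0
    cases b with
    | inl y =>
      simp only at hu0 hv0
      have h1 := hG.dist_eq_zero_iff.mp hu0.symm
      have h2 := hG.dist_eq_zero_iff.mp hv0.symm
      exact huv (h1.trans h2.symm)
    | inr f =>
      have h1 : u ∈ f.1 := eltDist_edge_eq_zero hG hu0.symm
      have h2 : v ∈ f.1 := eltDist_edge_eq_zero hG hv0.symm
      apply hb
      congr 1
      exact Subtype.ext ((Sym2.mem_and_mem_iff huv).mp ⟨h1, h2⟩)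

/-- The criterion: `W` contains the root, meets every lower set, contains one of any two parents
of a vertex, and every non-tree edge is resolved from all other elements. -/
lemma resolving_of {r : V} {W : Finset V} (hr : r ∈ W)
    (H2 : ∀ y, ∃ s ∈ W, Below G r y s)
    (HK : ∀ w p q, G.Adj w p → G.Adj w q → G.dist r p + 1 = G.dist r w →
      G.dist r q + 1 = G.dist r w → p ≠ q → p ∈ W ∨ q ∈ W)
    (par : V → V) (hpar : ∀ x, x ≠ r → G.Adj x (par x) ∧ G.dist r (par x) + 1 = G.dist r x)
    (HE : ∀ e : G.edgeSet, (∀ x, x ≠ r → e.1 ≠ s(x, par x)) →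
      ∀ b : V ⊕ G.edgeSet, b ≠ Sum.inr e → Res G W (Sum.inr e) b) :
    IsMixedResolving G W := by
  classical
  -- tree elements have a low vertex
  have key : ∀ a : V ⊕ G.edgeSet, (∀ b, b ≠ a → Res G W a b) ∨
      (∃ y, a = Sum.inl y) ∨ (∃ y, ∃ h : y ≠ r, a = Sum.inr ⟨s(y, par y), (hpar y h).1⟩) := by
    intro a
    cases a with
    | inl y => exact Or.inr (Or.inl ⟨y, rfl⟩)
    | inr e =>
      by_cases h : ∀ x, x ≠ r → e.1 ≠ s(x, par x)
      · exact Or.inl (fun b hb => HE e h b hb)
      · push Not at h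
        obtain ⟨x, hx, hex⟩ := h
        exact Or.inr (Or.inr ⟨x, hx, by congr 1; exact Subtype.ext hex⟩)
  intro a b hab
  rcases key a with ha | ha | ha
  · exact ha b hab.symm
  all_goals rcases key b with hb | hb | hb
  all_goals try (obtain ⟨s, hs, h⟩ := hb a hab; exact ⟨s, hs, h.symm⟩)
  · obtain ⟨y, rfl⟩ := ha
    obtain ⟨z, rfl⟩ := hb
    exact res_low hG H2 HK (low_vertex hG r y) (low_vertex hG r z) (fun h => hab (by rw [h]))
  · obtain ⟨y, rfl⟩ := ha
    obtain ⟨z, hz, rfl⟩ := hb
    by_cases hyz : y = z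
    · subst hyz
      refine ⟨r, hr, ?_⟩
      have := (hpar y hz).2
      simp only [eltDist, edgeDist, Sym2.lift_mk]
      omega
    · exact res_low hG H2 HK (low_vertex hG r y) (low_edge hG _ (hpar z hz).2) hyz
  · obtain ⟨y, hy, rfl⟩ := ha
    obtain ⟨z, rfl⟩ := hb
    by_cases hyz : y = z
    · subst hyz
      refine ⟨r, hr, ?_⟩
      have := (hpar y hy).2
      simp only [eltDist, edgeDist, Sym2.lift_mk]
      omega
    · exact res_low hG H2 HK (low_edge hG _ (hpar y hy).2) (low_vertex hG r z) hyz
  · obtain ⟨y, hy, rfl⟩ := ha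
    obtain ⟨z, hz, rfl⟩ := hb
    refine res_low hG H2 HK (low_edge hG _ (hpar y hy).2) (low_edge hG _ (hpar z hz).2) ?_
    rintro rfl
    exact hab rfl

end main

/-! ### Counting non-tree edges and their ends -/

section count

variable [Fintype V]

open Classical in
/-- The edges of `G` outside the tree given by the parent function `par`. -/
noncomputable def cotree (G : SimpleGraph V) (r : V) (par : V → V) : Finset (Sym2 V) :=
  (Set.toFinite {e | e ∈ G.edgeSet ∧ ∀ x, x ≠ r → e ≠ s(x, par x)}).toFinset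

lemma mem_cotree {G : SimpleGraph V} {r : V} {par : V → V} {e : Sym2 V} :
    e ∈ cotree G r par ↔ e ∈ G.edgeSet ∧ ∀ x, x ≠ r → e ≠ s(x, par x) := by
  simp [cotree]

open Classical in
/-- All ends of the edges in `C`. -/
noncomputable def ends (C : Finset (Sym2 V)) : Finset V := C.biUnion Sym2.toFinset

lemma mem_ends {C : Finset (Sym2 V)} {x : V} : x ∈ ends C ↔ ∃ e ∈ C, x ∈ e := by
  classical
  simp [ends]

lemma card_toFinset_le (e : Sym2 V) [DecidableEq V] : e.toFinset.card ≤ 2 := by
  rw [Sym2.card_toFinset]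
  split <;> omega

lemma card_ends_le (C : Finset (Sym2 V)) : (ends C).card ≤ 2 * C.card := by
  classical
  unfold ends
  refine Finset.card_biUnion_le.trans ?_
  rw [mul_comm, ← smul_eq_mul, ← Finset.sum_const]
  exact Finset.sum_le_sum fun e _ => by
    rw [Sym2.card_toFinset]
    split <;> omega

lemma card_ends_lt {C : Finset (Sym2 V)} {e f : Sym2 V} (he : e ∈ C) (hf : f ∈ C) (hef : e ≠ f)
    {x : V} (hxe : x ∈ e) (hxf : x ∈ f) : (ends C).card + 1 ≤ 2 * C.card := by
  classical
  have h1 : ends C ⊆ ends (C.erase f) ∪ (f.toFinset.erase x) := by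
    intro y hy
    obtain ⟨g, hg, hyg⟩ := mem_ends.mp hy
    by_cases hgf : g = f
    · subst hgf
      by_cases hyx : y = x
      · subst hyx
        exact Finset.mem_union_left _ (mem_ends.mpr ⟨e, Finset.mem_erase.mpr ⟨hef, he⟩, hxe⟩)
      · exact Finset.mem_union_right _
          (Finset.mem_erase.mpr ⟨hyx, Sym2.mem_toFinset.mpr hyg⟩)
    · exact Finset.mem_union_left _ (mem_ends.mpr ⟨g, Finset.mem_erase.mpr ⟨hgf, hg⟩, hyg⟩)
  have h2 := (Finset.card_le_card h1).trans (Finset.card_union_le _ _)
  have h3 := card_ends_le (C.erase f)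
  rw [Finset.card_erase_of_mem hf] at h3
  have h4 : (f.toFinset.erase x).card + 1 = f.toFinset.card :=
    Finset.card_erase_add_one (Sym2.mem_toFinset.mpr hxf)
  have h5 : f.toFinset.card ≤ 2 := by
    rw [Sym2.card_toFinset]
    split <;> omega
  have h6 : 0 < C.card := Finset.card_pos.mpr ⟨f, hf⟩
  omega

lemma card_cotree {G : SimpleGraph V} {r : V} {par : V → V}
    (hpar : ∀ x, x ≠ r → G.Adj x (par x) ∧ G.dist r (par x) + 1 = G.dist r x) :
    (cotree G r par).card + Fintype.card V = G.edgeSet.ncard + 1 := by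
  classical
  have hinj : Set.InjOn (fun x => s(x, par x)) ({r}ᶜ : Set V) := by
    intro x hx y hy hxy
    simp only [Sym2.eq_iff] at hxy
    rcases hxy with ⟨h, _⟩ | ⟨h1, h2⟩
    · exact h
    · have h3 := (hpar x hx).2
      have h4 := (hpar y hy).2
      rw [← h1] at h4
      rw [h2] at h3
      omega
  have h1 : ((fun x => s(x, par x)) '' ({r}ᶜ : Set V)).ncard = Fintype.card V - 1 := by
    rw [hinj.ncard_image, Set.ncard_compl, Set.ncard_singleton,
      Nat.card_eq_fintype_card]
  have h2 : (cotree G r par).card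
      = {e | e ∈ G.edgeSet ∧ ∀ x, x ≠ r → e ≠ s(x, par x)}.ncard := by
    rw [Set.ncard_eq_toFinset_card _ (Set.toFinite _)]
    rfl
  have h3 : G.edgeSet = {e | e ∈ G.edgeSet ∧ ∀ x, x ≠ r → e ≠ s(x, par x)} ∪
      ((fun x => s(x, par x)) '' ({r}ᶜ : Set V)) := by
    ext e
    constructor
    · intro he
      by_cases h : ∀ x, x ≠ r → e ≠ s(x, par x)
      · exact Or.inl ⟨he, h⟩
      · push Not at h
        obtain ⟨x, hx, hex⟩ := h
        exact Or.inr ⟨x, hx, hex.symm⟩
    · rintro (h | ⟨x, hx, rfl⟩)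
      · exact h.1
      · exact (hpar x hx).1
  have h4 : Disjoint {e | e ∈ G.edgeSet ∧ ∀ x, x ≠ r → e ≠ s(x, par x)}
      ((fun x => s(x, par x)) '' ({r}ᶜ : Set V)) := by
    rw [Set.disjoint_left]
    rintro e ⟨_, h⟩ ⟨x, hx, rfl⟩
    exact h x hx rfl
  have h5 : G.edgeSet.ncard = (cotree G r par).card + (Fintype.card V - 1) := by
    rw [h2, ← h1, ← Set.ncard_union_eq h4 (Set.toFinite _) (Set.toFinite _), ← h3]
  have h6 : 0 < Fintype.card V := Fintype.card_pos_iff.mpr ⟨r⟩
  omega

end count

/-! ### Bottom vertices -/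

section bottom

variable [Fintype V] {G : SimpleGraph V} (hG : G.Connected) {r : V} {par : V → V}
  (hpar : ∀ x, x ≠ r → G.Adj x (par x) ∧ G.dist r (par x) + 1 = G.dist r x)
include hG

lemma exists_bottom (r y : V) :
    ∃ s, Below G r y s ∧ ∀ z, G.Adj s z → G.dist r z ≠ G.dist r s + 1 := by
  classical
  obtain ⟨s, hs, hmax⟩ := Finset.exists_max_image (Finset.univ.filter fun s => Below G r y s)
    (fun s => G.dist r s) ⟨y, by simp [below_self]⟩
  refine ⟨s, (Finset.mem_filter.mp hs).2, fun z hz hlev => ?_⟩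
  have := hmax z (by
    simp only [Finset.mem_filter, Finset.mem_univ, true_and]
    exact below_succ hG (Finset.mem_filter.mp hs).2 hz hlev)
  omega

include hpar

lemma mem_cotree_of {x z : V} (hx : x ≠ r) (hadj : G.Adj x z) (hne : z ≠ par x)
    (hlev : G.dist r z ≤ G.dist r x) : s(x, z) ∈ cotree G r par := by
  rw [mem_cotree]
  refine ⟨hadj, fun y hy h => ?_⟩
  rw [Sym2.eq_iff] at h
  rcases h with ⟨h1, h2⟩ | ⟨h1, h2⟩
  · subst h1
    exact hne h2
  · subst h2
    have := (hpar z hy).2
    rw [← h1] at this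
    omega

lemma root_lt {x z : V} (hlev : G.dist r z + 1 = G.dist r x) : x ≠ r := by
  rintro rfl
  simp at hlev

lemma bottom_mem (hn : 1 < Fintype.card V) {s : V}
    (hs : ∀ z, G.Adj s z → G.dist r z ≠ G.dist r s + 1) :
    s ≠ r ∧ ((G.neighborSet s).ncard = 1 ∨ s ∈ ends (cotree G r par)) := by
  classical
  haveI : Nontrivial V := Fintype.one_lt_card_iff_nontrivial.mp hn
  have hsr : s ≠ r := by
    rintro rfl
    obtain ⟨z, hz⟩ := exists_ne s
    obtain ⟨p, hp, -⟩ := exists_parent hG hz.symm
    have := hs p hp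
    rw [dist_eq_one_iff_adj.mpr hp, dist_self] at this
    exact this rfl
  refine ⟨hsr, ?_⟩
  by_cases h : (G.neighborSet s).ncard = 1
  · exact Or.inl h
  · right
    have h1 : par s ∈ G.neighborSet s := (hpar s hsr).1
    have h2 : ∃ z ∈ G.neighborSet s, z ≠ par s := by
      by_contra hcon
      push Not at hcon
      apply h
      rw [Set.ncard_eq_one]
      exact ⟨par s, Set.eq_singleton_iff_unique_mem.mpr ⟨h1, hcon⟩⟩
    obtain ⟨z, hz, hzp⟩ := h2
    refine mem_ends.mpr ⟨s(s, z), mem_cotree_of hG hpar hsr hz hzp ?_, Sym2.mem_mk_left s z⟩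
    have h3 := hs z hz
    have h4 := level_adj hG (r := r) hz
    omega

end bottom



/-! ### A root for which `v` has two parents or a horizontal neighbour -/

section lemmaA

variable {G : SimpleGraph V} (hG : G.Connected)
include hG

lemma lemmaA {v a b : V} (hva : G.Adj v a) (hvb : G.Adj v b) (hab : a ≠ b)
    (q : G.Walk a b) (hq : v ∉ q.support) :
    ∃ r, r ≠ v ∧ ((∃ x y, x ≠ y ∧ G.Adj v x ∧ G.Adj v y ∧ G.dist r x + 1 = G.dist r v ∧
      G.dist r y + 1 = G.dist r v) ∨ ∃ x, G.Adj v x ∧ G.dist r x = G.dist r v) := by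
  classical
  by_contra hcon
  push Not at hcon
  have step : ∀ r r' c, r ≠ v → r' ≠ v → G.Adj r r' →
      (G.Adj v c ∧ G.dist r c + 1 = G.dist r v) → (G.Adj v c ∧ G.dist r' c + 1 = G.dist r' v) := by
    intro r r' c hr hr' hadj hc
    obtain ⟨h1, h2⟩ := hcon r hr
    obtain ⟨h1', h2'⟩ := hcon r' hr'
    obtain ⟨c', hc', hc'2⟩ := exists_parent hG hr'.symm
    by_cases hcc : c' = c
    · subst hcc
      exact ⟨hc', hc'2⟩
    · exfalso
      have h3 := level_adj hG (r := r) hc'
      have h4 := level_adj hG (r := r') hc.1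
      have h5 := h1 c c' (Ne.symm hcc) hc.1 hc' hc.2
      have h6 := h2 c' hc'
      have h7 := h1' c' c hcc hc' hc.1 hc'2
      have h8 := h2' c hc.1
      have h9 : G.dist r c' ≤ G.dist r r' + G.dist r' c' := hG.dist_triangle
      have h10 : G.dist r' c ≤ G.dist r' r + G.dist r c := hG.dist_triangle
      have h11 : G.dist r r' = 1 := dist_eq_one_iff_adj.mpr hadj
      have h12 : G.dist r' r = 1 := dist_eq_one_iff_adj.mpr hadj.symm
      omega
  have main : ∀ {x y : V} (p : G.Walk x y), v ∉ p.support → ∀ c,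
      (G.Adj v c ∧ G.dist x c + 1 = G.dist x v) → (G.Adj v c ∧ G.dist y c + 1 = G.dist y v) := by
    intro x y p
    induction p with
    | nil => intro _ c h; exact h
    | @cons x z y hadj p ih =>
      intro hp c h
      rw [Walk.support_cons, List.mem_cons, not_or] at hp
      have hz : z ≠ v := by
        rintro rfl
        exact hp.2 p.start_mem_support
      exact ih hp.2 c (step x z c (Ne.symm hp.1) hz hadj h)
  have ha : G.Adj v a ∧ G.dist a a + 1 = G.dist a v := by
    refine ⟨hva, ?_⟩
    rw [dist_eq_one_iff_adj.mpr hva.symm, dist_self]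
  have hb : G.Adj v b ∧ G.dist b b + 1 = G.dist b v := by
    refine ⟨hvb, ?_⟩
    rw [dist_eq_one_iff_adj.mpr hvb.symm, dist_self]
  have h1 := main q hq a ha
  exact (hcon b (G.ne_of_adj hvb).symm).1 a b hab h1.1 hb.1 h1.2 hb.2

end lemmaA

/-! ### A branch vertex on a cycle -/

section branch

lemma exists_branch [Fintype V] {G : SimpleGraph V} (hG : G.Connected)
    (hn : 1 < Fintype.card V)
    (hcyc : ∀ n, 3 ≤ n → IsEmpty (G ≃g cycleGraph n))
    (hmin : ∀ v, 2 ≤ (G.neighborSet v).ncard) :
    ∃ v a b, a ≠ b ∧ G.Adj v a ∧ G.Adj v b ∧ 2 < (G.neighborSet v).ncard ∧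
      ∃ q : G.Walk a b, v ∉ q.support := by
  classical
  have : Nontrivial V := Fintype.one_lt_card_iff_nontrivial.mp hn
  have hnac : ¬ G.IsAcyclic := by
    intro hac
    have hT : G.IsTree := ⟨hG, hac⟩
    obtain ⟨v, hv⟩ := hT.exists_vert_degree_one_of_nontrivial
    have h1 := hmin v
    rw [← Nat.card_coe_set_eq, Nat.card_eq_fintype_card, card_neighborSet_eq_degree] at h1
    omega
  rw [isAcyclic_iff_free_cycleGraph] at hnac
  push Not at hnac
  obtain ⟨n, hn3, hf⟩ := hnac
  obtain ⟨f⟩ := hf
  obtain ⟨m, rfl⟩ : ∃ m, n = m + 3 := ⟨n - 3, by omega⟩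
  have hne2 : ∀ i : Fin (m + 3), i - 1 ≠ i + 1 := by
    intro i
    simp only [ne_eq, sub_eq_iff_eq_add, add_assoc i, left_eq_add]
    exact ne_of_beq_false rfl
  have hadj1 : ∀ i : Fin (m + 3), G.Adj (f i) (f (i + 1)) := fun i =>
    f.toHom.map_adj (by rw [cycleGraph_adj]; right; abel)
  have hadj2 : ∀ i : Fin (m + 3), G.Adj (f i) (f (i - 1)) := fun i =>
    f.toHom.map_adj (by rw [cycleGraph_adj]; left; abel)
  by_cases hall : ∀ i, (G.neighborSet (f i)).ncard = 2
  · exfalso
    have hnb : ∀ i, G.neighborSet (f i) = {f (i - 1), f (i + 1)} := by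
      intro i
      symm
      apply Set.eq_of_subset_of_ncard_le _ _ (Set.toFinite _)
      · intro x hx
        rcases hx with rfl | rfl
        · exact hadj2 i
        · exact hadj1 i
      · have hfi : f (i - 1) ≠ f (i + 1) := fun h => hne2 i (f.injective h)
        rw [hall i, Set.ncard_pair hfi]
    have hsurj : Function.Surjective f := by
      intro y
      obtain ⟨w⟩ := hG.preconnected (f 0) y
      have : ∀ {x y : V} (w : G.Walk x y), x ∈ Set.range f → y ∈ Set.range f := by
        intro x y w
        induction w with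
        | nil => exact id
        | @cons x z y hadj w ih =>
          rintro ⟨i, rfl⟩
          apply ih
          have : z ∈ G.neighborSet (f i) := hadj
          rw [hnb i] at this
          rcases this with rfl | rfl
          · exact ⟨_, rfl⟩
          · exact ⟨_, rfl⟩
      exact this w ⟨0, rfl⟩
    have hiso : cycleGraph (m + 3) ≃g G :=
      { toEquiv := Equiv.ofBijective f ⟨f.injective, hsurj⟩
        map_rel_iff' := by
          intro i j
          constructor
          · intro h
            have h1 : f j ∈ G.neighborSet (f i) := h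
            rw [hnb i] at h1
            rw [← mem_neighborSet, cycleGraph_neighborSet]
            rcases h1 with h1 | h1
            · left; exact f.injective h1
            · right; exact f.injective h1
          · intro h
            exact f.toHom.map_adj h }
    exact (hcyc (m + 3) hn3).false hiso.symm
  · push Not at hall
    obtain ⟨i, hi⟩ := hall
    have hi2 : 2 < (G.neighborSet (f i)).ncard := lt_of_le_of_ne (hmin _) (Ne.symm hi)
    have hne : ∀ (k : ℕ) (hk : k + 1 < m + 3), f i ≠ f (i + ⟨k + 1, hk⟩) := by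
      intro k hk h
      have h1 := f.injective h
      rw [left_eq_add] at h1
      have h2 := congrArg Fin.val h1
      simp at h2
    have hsucc : ∀ (k : ℕ) (hk : k + 1 + 1 < m + 3),
        (⟨k + 1 + 1, hk⟩ : Fin (m + 3)) = ⟨k + 1, by omega⟩ + 1 := by
      intro k hk
      apply Fin.ext
      rw [Fin.val_add]
      simp only [Fin.val_one]
      rw [Nat.mod_eq_of_lt hk]
    have key : ∀ (k : ℕ) (hk : k + 1 < m + 3),
        ∃ q : G.Walk (f (i + 1)) (f (i + ⟨k + 1, hk⟩)), f i ∉ q.support := by
      intro k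
      induction k with
      | zero =>
        intro hk
        refine ⟨(Walk.nil : G.Walk (f (i + 1)) (f (i + 1))), ?_⟩
        have := hne 0 hk
        simpa using this
      | succ k ih =>
        intro hk
        obtain ⟨q, hq⟩ := ih (by omega)
        have hadj : G.Adj (f (i + ⟨k + 1, by omega⟩)) (f (i + ⟨k + 1 + 1, hk⟩)) := by
          rw [hsucc, ← add_assoc]
          exact hadj1 _
        refine ⟨q.concat hadj, ?_⟩
        rw [Walk.support_concat, List.mem_append, not_or]
        refine ⟨hq, ?_⟩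
        simpa using hne (k + 1) hk
    have hlast : i + ⟨m + 1 + 1, by omega⟩ = i - 1 := by
      rw [eq_sub_iff_add_eq, add_assoc, add_eq_left]
      apply Fin.ext
      rw [Fin.val_add]
      simp
    have key2 := key (m + 1) (by omega)
    rw [hlast] at key2
    exact ⟨f i, f (i + 1), f (i - 1), fun h => hne2 i (f.injective h).symm, hadj1 i, hadj2 i, hi2,
      key2⟩

end branch

/-! ### The resolving sets -/

section assemble

variable [Fintype V] {G : SimpleGraph V} (hG : G.Connected) {r : V} {par : V → V}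

lemma exists_par {G : SimpleGraph V} (hG : G.Connected) (r : V) :
    ∃ par : V → V, ∀ x, x ≠ r → G.Adj x (par x) ∧ G.dist r (par x) + 1 = G.dist r x := by
  classical
  refine ⟨fun x => if h : x ≠ r then (exists_parent hG h).choose else x, fun x hx => ?_⟩
  simp only [dif_pos hx]
  exact (exists_parent hG hx).choose_spec

variable (hpar : ∀ x, x ≠ r → G.Adj x (par x) ∧ G.dist r (par x) + 1 = G.dist r x)
include hG hpar

lemma cotree_of_parents {w p q : V} (hp : G.Adj w p) (hq : G.Adj w q)
    (hp1 : G.dist r p + 1 = G.dist r w) (hq1 : G.dist r q + 1 = G.dist r w) (hpq : p ≠ q) :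
    s(w, p) ∈ cotree G r par ∨ s(w, q) ∈ cotree G r par := by
  have hwr : w ≠ r := by
    rintro rfl
    simp at hp1
  by_cases h : p = par w
  · right
    exact mem_cotree_of hG hpar hwr hq (fun h' => hpq (h.trans h'.symm)) (by omega)
  · left
    exact mem_cotree_of hG hpar hwr hp h (by omega)

lemma resolving_full (hn : 1 < Fintype.card V) {W : Finset V} (hr : r ∈ W)
    (hE : ends (cotree G r par) ⊆ W) (hL : ∀ s, (G.neighborSet s).ncard = 1 → s ∈ W) :
    IsMixedResolving G W := by
  refine resolving_of hG hr ?_ ?_ par hpar ?_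
  · intro y
    obtain ⟨s, hs, hb⟩ := exists_bottom hG r y
    refine ⟨s, ?_, hs⟩
    rcases (bottom_mem hG hpar hn hb).2 with h | h
    · exact hL s h
    · exact hE h
  · intro w p q hp hq hp1 hq1 hpq
    rcases cotree_of_parents hG hpar hp hq hp1 hq1 hpq with h | h
    · exact Or.inl (hE (mem_ends.mpr ⟨_, h, Sym2.mem_mk_right w p⟩))
    · exact Or.inr (hE (mem_ends.mpr ⟨_, h, Sym2.mem_mk_right w q⟩))
  · intro e he b hb
    exact res_full hG (fun x hx => hE (mem_ends.mpr ⟨e.1, mem_cotree.mpr ⟨e.2, he⟩, hx⟩)) hb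

open Classical in
lemma resolving_B (hn : 1 < Fintype.card V) (hleaf : ∀ s, (G.neighborSet s).ncard ≠ 1)
    (hdisj : ∀ e ∈ cotree G r par, ∀ f ∈ cotree G r par, e ≠ f → ∀ y, y ∈ e → y ∉ f)
    {v x : V} (hvx : s(v, x) ∈ cotree G r par) (hlev : G.dist r x ≤ G.dist r v)
    (hchild : ∃ z, G.Adj v z ∧ G.dist r z = G.dist r v + 1)
    (hS : G.dist r x = G.dist r v → ∃ s ∈ ends (cotree G r par), s ≠ v ∧
      G.dist s v < G.dist s x) :
    IsMixedResolving G (insert r ((ends (cotree G r par)).erase v)) := by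
  set C := cotree G r par with hC
  set W : Finset V := insert r ((ends C).erase v) with hW
  have hadjvx : G.Adj v x := (mem_cotree.mp hvx).1
  have hxv : x ≠ v := (G.ne_of_adj hadjvx).symm
  have hxW : x ∈ W := Finset.mem_insert_of_mem
    (Finset.mem_erase.mpr ⟨hxv, mem_ends.mpr ⟨_, hvx, Sym2.mem_mk_right v x⟩⟩)
  have hrW : r ∈ W := Finset.mem_insert_self _ _
  have hmemW : ∀ y, y ≠ v → y ∈ ends C → y ∈ W := fun y h1 h2 =>
    Finset.mem_insert_of_mem (Finset.mem_erase.mpr ⟨h1, h2⟩)
  -- an edge of the cotree other than `vx` avoids `v` (and `x`)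
  have hother : ∀ e ∈ C, e ≠ s(v, x) → v ∉ e ∧ x ∉ e := by
    intro e he hne
    exact ⟨hdisj _ hvx e he (Ne.symm hne) v (Sym2.mem_mk_left v x),
      hdisj _ hvx e he (Ne.symm hne) x (Sym2.mem_mk_right v x)⟩
  have H2 : ∀ y, ∃ s ∈ W, Below G r y s := by
    intro y
    obtain ⟨s, hs, hb⟩ := exists_bottom hG r y
    refine ⟨s, ?_, hs⟩
    rcases (bottom_mem hG hpar hn hb).2 with h | h
    · exact absurd h (hleaf s)
    · refine hmemW s ?_ h
      rintro rfl
      obtain ⟨z, hz1, hz2⟩ := hchild
      exact hb z hz1 hz2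
  have HK : ∀ w p q, G.Adj w p → G.Adj w q → G.dist r p + 1 = G.dist r w →
      G.dist r q + 1 = G.dist r w → p ≠ q → p ∈ W ∨ q ∈ W := by
    have aux : ∀ w p, G.dist r p + 1 = G.dist r w → s(w, p) ∈ C → p ∈ W := by
      intro w p h1 h2
      refine hmemW p ?_ (mem_ends.mpr ⟨_, h2, Sym2.mem_mk_right w p⟩)
      rintro rfl
      by_cases h3 : s(w, p) = s(p, x)
      · rw [Sym2.eq_iff] at h3
        rcases h3 with ⟨h3, h4⟩ | ⟨h3, _⟩
        · exact hxv h4.symm
        · subst h3
          omega
      · exact (hother _ h2 h3).1 (Sym2.mem_mk_right w p)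
    intro w p q hp hq hp1 hq1 hpq
    rcases cotree_of_parents hG hpar hp hq hp1 hq1 hpq with h | h
    · exact Or.inl (aux w p hp1 h)
    · exact Or.inr (aux w q hq1 h)
  refine resolving_of hG hrW H2 HK par hpar ?_
  intro e he b hb
  have heC : e.1 ∈ C := mem_cotree.mpr ⟨e.2, he⟩
  by_cases he0 : e.1 = s(v, x)
  swap
  · refine res_full hG (fun y hy => ?_) hb
    refine hmemW y ?_ (mem_ends.mpr ⟨e.1, heC, hy⟩)
    rintro rfl
    exact (hother _ heC he0).1 hy
  -- now `e = vx`
  obtain rfl : e = ⟨s(v, x), hadjvx⟩ := Subtype.ext he0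
  have hx0 : eltDist G x (Sum.inr ⟨s(v, x), hadjvx⟩) = 0 := by
    simp [eltDist, edgeDist]
  -- distances from `s` to the edge `vx`
  have hedist : ∀ s, eltDist G s (Sum.inr ⟨s(v, x), hadjvx⟩) = min (G.dist s v) (G.dist s x) := by
    intro s
    simp [eltDist, edgeDist]
  rcases b with y | f
  · -- a vertex
    by_cases hyx : y = x
    · subst hyx
      by_cases hl : G.dist r y = G.dist r v
      · obtain ⟨s, hs, hsv, hlt⟩ := hS hl
        refine ⟨s, hmemW s hsv hs, ?_⟩
        rw [hedist]
        simp only [eltDist]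
        omega
      · have hlow : Low G r (Sum.inr ⟨s(v, y), hadjvx⟩) v := low_edge hG hadjvx (by
          have := level_adj hG (r := r) hadjvx
          omega)
        exact res_low hG H2 HK hlow (low_vertex hG r y) hxv.symm
    · refine ⟨x, hxW, ?_⟩
      rw [hx0]
      simp only [eltDist]
      intro h
      exact hyx (hG.dist_eq_zero_iff.mp h.symm).symm
  · -- an edge
    by_cases hxf : x ∈ f.1
    · obtain ⟨f, hf⟩ := f
      simp only at hxf
      obtain ⟨z, rfl⟩ := Sym2.mem_iff_exists.mp hxf
      have hzv : z ≠ v := by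
        rintro rfl
        apply hb
        congr 1
        exact Subtype.ext (Sym2.eq_swap)
      have hadjxz : G.Adj x z := hf
      have hfd : ∀ s, eltDist G s (Sum.inr ⟨s(x, z), hf⟩) = min (G.dist s x) (G.dist s z) := by
        intro s
        simp [eltDist, edgeDist]
      rcases level_adj hG (r := r) hadjxz with h | h | h
      · -- `z` above `x`
        by_cases hl : G.dist r x = G.dist r v
        · refine ⟨r, hrW, ?_⟩
          rw [hedist, hfd]
          omega
        · have hlow : Low G r (Sum.inr ⟨s(v, x), hadjvx⟩) v := low_edge hG hadjvx (by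
            have := level_adj hG (r := r) hadjvx
            omega)
          exact res_low hG H2 HK hlow (low_edge hG hadjxz h) hxv.symm
      · -- horizontal
        exfalso
        have hxr : x ≠ r := by
          rintro rfl
          rw [dist_self, hG.dist_eq_zero_iff] at h
          exact (G.ne_of_adj hadjxz) h
        have hin : s(x, z) ∈ C := by
          refine mem_cotree_of hG hpar hxr hadjxz ?_ (by omega)
          rintro rfl
          have := (hpar x hxr).2
          omega
        refine (hother _ hin ?_).2 (Sym2.mem_mk_left x z)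
        intro h5
        rw [Sym2.eq_iff] at h5
        rcases h5 with ⟨h5, _⟩ | ⟨_, h5⟩
        · exact hxv h5
        · exact hzv h5
      · -- `z` below `x`
        have hlowz : Low G r (Sum.inr ⟨s(x, z), hf⟩) z := by
          have h6 := low_edge hG hadjxz.symm (r := r) (by omega)
          have h7 : (⟨s(x, z), hf⟩ : G.edgeSet) = ⟨s(z, x), hadjxz.symm⟩ :=
            Subtype.ext Sym2.eq_swap
          rw [h7]
          exact h6
        by_cases hl : G.dist r x = G.dist r v
        · obtain ⟨s, hs, hsb⟩ := H2 z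
          refine ⟨s, hs, ?_⟩
          have h8 := (hlowz s).2.2 hsb
          rw [hedist]
          have h9 : G.dist r s ≤ G.dist r v + G.dist v s := hG.dist_triangle
          have h10 : G.dist r s ≤ G.dist r x + G.dist x s := hG.dist_triangle
          rw [dist_comm (u := v)] at h9
          rw [dist_comm (u := x)] at h10
          omega
        · have hlow : Low G r (Sum.inr ⟨s(v, x), hadjvx⟩) v := low_edge hG hadjvx (by
            have := level_adj hG (r := r) hadjvx
            omega)
          exact res_low hG H2 HK hlow hlowz hzv.symm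
    · refine ⟨x, hxW, ?_⟩
      rw [hx0]
      intro h
      exact hxf (eltDist_edge_eq_zero hG h.symm)

end assemble

/-! ### The bound -/

section final

variable [Fintype V] {G : SimpleGraph V} (hG : G.Connected)
include hG

omit hG [Fintype V] in
lemma mdim_le {W : Finset V} (h : IsMixedResolving G W) : mdim G ≤ W.card :=
  Nat.sInf_le ⟨W, rfl, h⟩

lemma dist_lt_of_below {r v x s : V} (hl : G.dist r x = G.dist r v) (h1 : Below G r v s)
    (h2 : ¬ Below G r x s) : G.dist s v < G.dist s x := by
  unfold Below at *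
  have h3 : G.dist r s ≤ G.dist r x + G.dist x s := hG.dist_triangle
  rw [dist_comm (u := s) (v := v), dist_comm (u := s) (v := x)]
  omega

lemma horizontal_choice (hn : 1 < Fintype.card V) (hleaf : ∀ s, (G.neighborSet s).ncard ≠ 1)
    {r v x : V} (hvr : v ≠ r) (hvx : G.Adj v x) (hl : G.dist r x = G.dist r v)
    (hchild : ∃ z, G.Adj v z ∧ G.dist r z = G.dist r v + 1)
    (hB : ∀ par : V → V,
      (∀ x, x ≠ r → G.Adj x (par x) ∧ G.dist r (par x) + 1 = G.dist r x) →
      ∀ e ∈ cotree G r par, ∀ f ∈ cotree G r par, e ≠ f → ∀ y, y ∈ e → y ∉ f) :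
    ∃ par : V → V, (∀ x, x ≠ r → G.Adj x (par x) ∧ G.dist r (par x) + 1 = G.dist r x) ∧
      ∃ s ∈ ends (cotree G r par), s ≠ v ∧ G.dist s v < G.dist s x := by
  classical
  obtain ⟨par0, hpar0⟩ := exists_par hG r
  by_cases hD : ∃ w, Below G r v w ∧ Below G r x w
  · let P : ℕ → Prop := fun n => ∃ w, Below G r v w ∧ Below G r x w ∧ G.dist r w = n
    have hP : ∃ n, P n := by
      obtain ⟨w, h1, h2⟩ := hD
      exact ⟨_, w, h1, h2, rfl⟩
    obtain ⟨w, hvw, hxw, hw⟩ := Nat.find_spec hP
    have hmin : ∀ u, Below G r v u → Below G r x u → G.dist r w ≤ G.dist r u := by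
      intro u h1 h2
      rw [hw]
      exact Nat.find_min' hP ⟨u, h1, h2, rfl⟩
    have hne : v ≠ x := G.ne_of_adj hvx
    have hwv : w ≠ v := by
      rintro rfl
      unfold Below at hxw
      have : G.dist x w = 0 := by omega
      rw [hG.dist_eq_zero_iff] at this
      exact hne this.symm
    have hwx : w ≠ x := by
      rintro rfl
      unfold Below at hvw
      have : G.dist v w = 0 := by omega
      rw [hG.dist_eq_zero_iff] at this
      exact hne this
    obtain ⟨p, hp1, hp2, hp3⟩ := below_pred hG hvw hwv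
    obtain ⟨q, hq1, hq2, hq3⟩ := below_pred hG hxw hwx
    have hpx : ¬ Below G r x p := fun h => by
      have := hmin p hp3 h
      omega
    have hpq : p ≠ q := by
      rintro rfl
      exact hpx hq3
    have hwr : w ≠ r := by
      rintro rfl
      simp at hp2
    have hpar : ∀ y, y ≠ r → G.Adj y (Function.update par0 w q y) ∧
        G.dist r (Function.update par0 w q y) + 1 = G.dist r y := by
      intro y hy
      by_cases hyw : y = w
      · subst hyw
        rw [Function.update_self]
        exact ⟨hq1, hq2⟩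
      · rw [Function.update_of_ne hyw]
        exact hpar0 y hy
    refine ⟨_, hpar, ?_⟩
    have hwp : s(w, p) ∈ cotree G r (Function.update par0 w q) := by
      refine mem_cotree_of hG hpar hwr hp1 ?_ (by omega)
      rw [Function.update_self]
      exact hpq
    refine ⟨p, mem_ends.mpr ⟨_, hwp, Sym2.mem_mk_right w p⟩, ?_, dist_lt_of_below hG hl hp3 hpx⟩
    rintro rfl
    have hvx2 : s(p, x) ∈ cotree G r (Function.update par0 w q) := by
      refine mem_cotree_of hG hpar hvr hvx ?_ (by omega)
      intro h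
      have := (hpar p hvr).2
      rw [← h] at this
      omega
    refine hB _ hpar _ hwp _ hvx2 ?_ p (Sym2.mem_mk_right w p) (Sym2.mem_mk_left p x)
    intro h
    rw [Sym2.eq_iff] at h
    rcases h with ⟨h, _⟩ | ⟨h, _⟩
    · exact hwv h
    · exact hwx h
  · refine ⟨par0, hpar0, ?_⟩
    obtain ⟨s, hs, hb⟩ := exists_bottom hG r v
    refine ⟨s, ?_, ?_, dist_lt_of_below hG hl hs (fun h => hD ⟨s, hs, h⟩)⟩
    · rcases (bottom_mem hG hpar0 hn hb).2 with h | h
      · exact absurd h (hleaf s)
      · exact h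
    · rintro rfl
      obtain ⟨z, hz1, hz2⟩ := hchild
      exact hb z hz1 hz2

omit hG in
lemma cyclomatic_eq {r : V} {par : V → V}
    (hpar : ∀ x, x ≠ r → G.Adj x (par x) ∧ G.dist r (par x) + 1 = G.dist r x) :
    cyclomatic G = (cotree G r par).card := by
  have := card_cotree hpar
  unfold cyclomatic
  omega

lemma bound_of_leaf (hn : 1 < Fintype.card V) {r : V} (hr : (G.neighborSet r).ncard = 1) :
    (mdim G : ℤ) ≤ leafCount G + 2 * cyclomatic G := by
  classical
  obtain ⟨par, hpar⟩ := exists_par hG r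
  have hfin : {v : V | (G.neighborSet v).ncard = 1}.Finite := Set.toFinite _
  have h1 := resolving_full hG hpar hn (W := ends (cotree G r par) ∪ hfin.toFinset)
    (Finset.mem_union_right _ (by simpa using hr)) Finset.subset_union_left
    (fun s hs => Finset.mem_union_right _ (by simpa using hs))
  have h2 := mdim_le h1
  have h3 := Finset.card_union_le (ends (cotree G r par)) hfin.toFinset
  have h4 := card_ends_le (cotree G r par)
  have h5 : leafCount G = hfin.toFinset.card := Set.ncard_eq_toFinset_card _ hfin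
  rw [cyclomatic_eq hpar]
  omega

lemma bound_no_leaf (hn : 1 < Fintype.card V)
    (hcyc : ∀ n, 3 ≤ n → IsEmpty (G ≃g cycleGraph n))
    (hleaf : ∀ s, (G.neighborSet s).ncard ≠ 1) : (mdim G : ℤ) ≤ 2 * cyclomatic G := by
  classical
  have : Nontrivial V := Fintype.one_lt_card_iff_nontrivial.mp hn
  have hmin : ∀ v, 2 ≤ (G.neighborSet v).ncard := by
    intro v
    obtain ⟨z, hz⟩ := exists_ne v
    obtain ⟨p, hp, -⟩ := exists_parent hG hz.symm
    have h1 : 0 < (G.neighborSet v).ncard := by
      rw [Set.ncard_pos (Set.toFinite _)]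
      exact ⟨p, hp⟩
    have := hleaf v
    omega
  obtain ⟨v, a, b, hab, hva, hvb, hdeg, q, hq⟩ := exists_branch hG hn hcyc hmin
  obtain ⟨r, hrv, hr⟩ := lemmaA hG hva hvb hab q hq
  have hvr : v ≠ r := Ne.symm hrv
  by_cases hA : ∃ par : V → V,
      (∀ x, x ≠ r → G.Adj x (par x) ∧ G.dist r (par x) + 1 = G.dist r x) ∧
      ∃ e ∈ cotree G r par, ∃ f ∈ cotree G r par, e ≠ f ∧ ∃ y, y ∈ e ∧ y ∈ f
  · obtain ⟨par, hpar, e, he, f, hf, hef, y, hye, hyf⟩ := hA
    have h1 := resolving_full hG hpar hn (W := insert r (ends (cotree G r par)))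
      (Finset.mem_insert_self _ _) (Finset.subset_insert _ _) (fun s hs => absurd hs (hleaf s))
    have h2 := mdim_le h1
    have h3 := Finset.card_insert_le r (ends (cotree G r par))
    have h4 := card_ends_lt he hf hef hye hyf
    rw [cyclomatic_eq hpar]
    omega
  · have hB : ∀ par : V → V,
        (∀ x, x ≠ r → G.Adj x (par x) ∧ G.dist r (par x) + 1 = G.dist r x) →
        ∀ e ∈ cotree G r par, ∀ f ∈ cotree G r par, e ≠ f → ∀ y, y ∈ e → y ∉ f := by
      intro par hpar e he f hf hef y hye hyf
      exact hA ⟨par, hpar, e, he, f, hf, hef, y, hye, hyf⟩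
    have hchild : ∃ z, G.Adj v z ∧ G.dist r z = G.dist r v + 1 := by
      by_contra hcon
      push Not at hcon
      obtain ⟨par, hpar⟩ := exists_par hG r
      have h1 : (G.neighborSet v \ {par v}).ncard + 1 = (G.neighborSet v).ncard :=
        Set.ncard_diff_singleton_add_one (hpar v hvr).1 (Set.toFinite _)
      have h2 : 1 < (G.neighborSet v \ {par v}).ncard := by omega
      rw [Set.one_lt_ncard (Set.toFinite _)] at h2
      obtain ⟨z1, hz1, z2, hz2, hz⟩ := h2
      have hin : ∀ z ∈ G.neighborSet v \ {par v}, s(v, z) ∈ cotree G r par := by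
        intro z hz
        refine mem_cotree_of hG hpar hvr hz.1 hz.2 ?_
        have h3 := hcon z hz.1
        have h4 := level_adj hG (r := r) hz.1
        omega
      refine hB par hpar _ (hin z1 hz1) _ (hin z2 hz2) ?_ v (Sym2.mem_mk_left _ _)
        (Sym2.mem_mk_left _ _)
      intro h
      rw [Sym2.eq_iff] at h
      rcases h with ⟨_, h⟩ | ⟨h, _⟩
      · exact hz h
      · exact G.ne_of_adj hz2.1 h
    -- the bound from a suitable pair
    have fin : ∀ par : V → V,
        (∀ x, x ≠ r → G.Adj x (par x) ∧ G.dist r (par x) + 1 = G.dist r x) →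
        ∀ x, s(v, x) ∈ cotree G r par → G.dist r x ≤ G.dist r v →
        (G.dist r x = G.dist r v → ∃ s ∈ ends (cotree G r par), s ≠ v ∧
          G.dist s v < G.dist s x) → (mdim G : ℤ) ≤ 2 * cyclomatic G := by
      intro par hpar x hx hl hS
      have h1 := mdim_le (resolving_B hG hpar hn hleaf (hB par hpar) hx hl hchild hS)
      have h2 := Finset.card_insert_le r ((ends (cotree G r par)).erase v)
      have h3 := Finset.card_erase_add_one
        (mem_ends.mpr ⟨_, hx, Sym2.mem_mk_left v x⟩ : v ∈ ends (cotree G r par))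
      have h4 := card_ends_le (cotree G r par)
      rw [cyclomatic_eq hpar]
      omega
    rcases hr with ⟨x, y, hxy, hvx, hvy, hx, hy⟩ | ⟨x, hvx, hx⟩
    · obtain ⟨par, hpar⟩ := exists_par hG r
      rcases cotree_of_parents hG hpar hvx hvy hx hy hxy with h | h
      · exact fin par hpar x h (by omega) (fun h' => by omega)
      · exact fin par hpar y h (by omega) (fun h' => by omega)
    · obtain ⟨par, hpar, hs⟩ := horizontal_choice hG hn hleaf hvr hvx hx hchild hB
      refine fin par hpar x ?_ (by omega) (fun _ => hs)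
      refine mem_cotree_of hG hpar hvr hvx ?_ (by omega)
      intro h
      have := (hpar v hvr).2
      rw [← h] at this
      omega

lemma bound (hcyc : ∀ n, 3 ≤ n → IsEmpty (G ≃g cycleGraph n)) :
    (mdim G : ℤ) ≤ leafCount G + 2 * cyclomatic G := by
  by_cases hn : 1 < Fintype.card V
  · by_cases hleaf : ∃ r, (G.neighborSet r).ncard = 1
    · obtain ⟨r, hr⟩ := hleaf
      exact bound_of_leaf hG hn hr
    · push Not at hleaf
      have := bound_no_leaf hG hn hcyc hleaf
      omega
  · have h0 : 0 < Fintype.card V := by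
      obtain ⟨x⟩ := hG.nonempty
      exact Fintype.card_pos_iff.mpr ⟨x⟩
    have h1 : Fintype.card V = 1 := by omega
    have : Subsingleton V := Fintype.card_le_one_iff_subsingleton.mp h1.le
    have he : G.edgeSet = ∅ := by
      ext e
      induction e using Sym2.ind with
      | _ x y =>
        simp only [mem_edgeSet, Set.mem_empty_iff_false, iff_false]
        intro h
        exact G.ne_of_adj h (Subsingleton.elim _ _)
    have hno : ∀ e, e ∉ G.edgeSet := by
      rw [he]
      exact fun e he => he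
    have h2 : IsMixedResolving G (∅ : Finset V) := by
      intro x y hxy
      exfalso
      rcases x with x | x
      · rcases y with y | y
        · exact hxy (by rw [Subsingleton.elim x y])
        · exact hno _ y.2
      · exact hno _ x.2
    have h3 := mdim_le h2
    have h4 : cyclomatic G = 0 := by
      unfold cyclomatic
      rw [he, h1]
      simp
    rw [h4]
    simp only [Finset.card_empty] at h3
    omega

end final

lemma leafCount_eq_zero [Fintype V] {G : SimpleGraph V} (h : TwoConnected G) :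
    leafCount G = 0 := by
  classical
  obtain ⟨hn, hG, hv⟩ := h
  unfold leafCount
  rw [Set.ncard_eq_zero (Set.toFinite _), Set.eq_empty_iff_forall_notMem]
  intro v hv1
  rw [Set.mem_setOf_eq, Set.ncard_eq_one] at hv1
  obtain ⟨u, hu⟩ := hv1
  have hvu : G.Adj v u := by
    have : u ∈ G.neighborSet v := by rw [hu]; rfl
    exact this
  obtain ⟨z, hz1, hz2⟩ : ∃ z, z ≠ u ∧ z ≠ v := by
    by_contra hcon
    push Not at hcon
    have h1 : (Finset.univ : Finset V) ⊆ {u, v} := by
      intro z _
      simp only [Finset.mem_insert, Finset.mem_singleton]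
      by_cases h : z = u
      · exact Or.inl h
      · exact Or.inr (hcon z h)
    have h2 := Finset.card_le_card h1
    have h3 := Finset.card_le_two (a := u) (b := v)
    rw [Finset.card_univ] at h2
    omega
  have hne : (⟨v, (G.ne_of_adj hvu)⟩ : ({u}ᶜ : Set V)) ≠ ⟨z, hz1⟩ := by
    intro h
    exact hz2 (congrArg Subtype.val h).symm
  obtain ⟨p, hp, -⟩ := exists_parent (hv u) hne
  have h4 : p.1 ∈ G.neighborSet v := hp
  rw [hu] at h4
  exact p.2 h4

/-- Every `2`-connected graph `G` which is not a cycle satisfies `mdim G ≤ 2 c(G)`.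
(The lemma `bound` above is the inequality `mdim G ≤ ℓ(G) + 2 c(G)` for every connected graph
which is not a cycle.) -/
theorem result {V : Type*} [Fintype V] (G : SimpleGraph V) (h2 : TwoConnected G)
    (hcyc : ∀ n, 3 ≤ n → IsEmpty (G ≃g cycleGraph n)) :
    (mdim G : ℤ) ≤ 2 * cyclomatic G := by
  have h1 := bound h2.2.1 hcyc
  rw [leafCount_eq_zero h2] at h1
  simpa using h1

end Pool.Agent.Results.MP_ca4ce9_co.CyclomaticBound
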